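import Pool.Agent.Y150.KN.Stm

/-!
# The unitary group is Zariski dense in the space of all complex matrices
-/

set_option autoImplicit false

namespace Pool.Agent.Y27.KN.Dens

open Matrix

variable {n m : ℕ}

/-- The value of a polynomial in the entries of a matrix. -/
noncomputable def ev (F : MvPolynomial (Fin n × Fin n) ℂ) (M : Matrix (Fin n) (Fin n) ℂ) : ℂ :=
  MvPolynomial.eval (fun p => M p.1 p.2) F

lemma ev_smul {F : MvPolynomial (Fin n × Fin n) ℂ} (hF : F.IsHomogeneous m) (c : ℂ)
    (M : Matrix (Fin n) (Fin n) ℂ) : ev F (c • M) = c ^ m * ev F M := by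
  unfold ev
  rw [MvPolynomial.eval_eq, MvPolynomial.eval_eq, Finset.mul_sum]
  apply Finset.sum_congr rfl
  intro d hd
  have h : ∑ i ∈ d.support, d i = m := by
    have h1 := hF (MvPolynomial.mem_support_iff.1 hd)
    rw [← h1, Finsupp.weight_apply, Finsupp.sum]
    simp
  simp only [Matrix.smul_apply, smul_eq_mul, mul_pow, Finset.prod_mul_distrib,
    Finset.prod_pow_eq_pow_sum, h]
  ring

/-- The Cayley transform without denominators. -/
noncomputable def cay (M : Matrix (Fin n) (Fin n) ℂ) : Matrix (Fin n) (Fin n) ℂ :=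
  (1 - Complex.I • M) * (1 + Complex.I • M).adjugate

/-- The Cayley transform of a Hermitian matrix is unitary up to a factor. -/
lemma herm_case {F : MvPolynomial (Fin n × Fin n) ℂ} (hF : F.IsHomogeneous m)
    (h0 : ∀ u ∈ Matrix.unitaryGroup (Fin n) ℂ, MvPolynomial.eval (fun p => u p.1 p.2) F = 0)
    (H : Matrix (Fin n) (Fin n) ℂ) (hH : H.IsHermitian) :
    (1 + Complex.I • H).det * ev F (cay H) = 0 := by
  by_cases hd : (1 + Complex.I • H).det = 0
  · rw [hd, zero_mul]
  set A : Matrix (Fin n) (Fin n) ℂ := 1 + Complex.I • H with hA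
  set B : Matrix (Fin n) (Fin n) ℂ := 1 - Complex.I • H with hB
  have hAB : A * B = B * A := by
    rw [hA, hB]
    simp only [mul_sub, add_mul, sub_mul, mul_add, one_mul, mul_one]
    abel
  have hAs : star A = B := by
    rw [hA, hB, Matrix.star_eq_conjTranspose, Matrix.conjTranspose_add,
      Matrix.conjTranspose_smul, hH.eq, Matrix.conjTranspose_one]
    simp [sub_eq_add_neg]
  have hBs : star B = A := by rw [← hAs, star_star]
  have hu : IsUnit A.det := Ne.isUnit hd
  have hu2 : IsUnit B.det := by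
    rw [← hAs, Matrix.star_eq_conjTranspose, Matrix.det_conjTranspose]
    exact hu.star
  have hinv : A * A⁻¹ = 1 := Matrix.mul_nonsing_inv A hu
  have hinv' : A⁻¹ * A = 1 := Matrix.nonsing_inv_mul A hu
  have hun : B * A⁻¹ ∈ Matrix.unitaryGroup (Fin n) ℂ := by
    rw [Matrix.mem_unitaryGroup_iff]
    have e1 : star (B * A⁻¹) = B⁻¹ * A := by
      rw [star_mul, hBs, Matrix.star_eq_conjTranspose, Matrix.conjTranspose_nonsing_inv,
        ← Matrix.star_eq_conjTranspose, hAs]
    rw [e1]
    have e2 : A⁻¹ * B⁻¹ = B⁻¹ * A⁻¹ := by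
      rw [← Matrix.mul_inv_rev, ← Matrix.mul_inv_rev, hAB]
    calc B * A⁻¹ * (B⁻¹ * A) = B * (A⁻¹ * B⁻¹) * A := by noncomm_ring
      _ = (B * B⁻¹) * (A⁻¹ * A) := by rw [e2]; noncomm_ring
      _ = 1 := by rw [Matrix.mul_nonsing_inv B hu2, hinv', one_mul]
  have h1 := h0 _ hun
  have h2 : cay H = A.det • (B * A⁻¹) := by
    have h3 : A.adjugate = A.det • A⁻¹ := by
      rw [Matrix.inv_def, smul_smul, Ring.mul_inverse_cancel _ hu, one_smul]
    unfold cay
    rw [← hA, ← hB, h3, Matrix.mul_smul]
  rw [h2, ev_smul hF]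
  have h4 : ev F (B * A⁻¹) = 0 := h1
  rw [h4, mul_zero, mul_zero]

/-- The identity of the previous lemma for all matrices. -/
lemma all_case {F : MvPolynomial (Fin n × Fin n) ℂ} (hF : F.IsHomogeneous m)
    (h0 : ∀ u ∈ Matrix.unitaryGroup (Fin n) ℂ, MvPolynomial.eval (fun p => u p.1 p.2) F = 0)
    (M : Matrix (Fin n) (Fin n) ℂ) :
    (1 + Complex.I • M).det * ev F (cay M) = 0 := by
  -- `M = H₁ + i H₂`
  set H₁ : Matrix (Fin n) (Fin n) ℂ := (1 / 2 : ℂ) • (M + Mᴴ) with hH₁
  set H₂ : Matrix (Fin n) (Fin n) ℂ := (-Complex.I / 2 : ℂ) • (M - Mᴴ) with hH₂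
  have hM : M = H₁ + Complex.I • H₂ := by
    rw [hH₁, hH₂, smul_smul]
    have e : Complex.I * (-Complex.I / 2) = 1 / 2 := by
      linear_combination (-1 / 2 : ℂ) * Complex.I_mul_I
    rw [e, ← smul_add]
    rw [show M + Mᴴ + (M - Mᴴ) = (2 : ℂ) • M by rw [two_smul]; abel, smul_smul]
    norm_num
  have hs₁ : H₁.IsHermitian := by
    unfold Matrix.IsHermitian
    rw [hH₁, Matrix.conjTranspose_smul, Matrix.conjTranspose_add, Matrix.conjTranspose_conjTranspose,
      add_comm]
    simp
  have hs₂ : H₂.IsHermitian := by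
    unfold Matrix.IsHermitian
    rw [hH₂, Matrix.conjTranspose_smul, Matrix.conjTranspose_sub, Matrix.conjTranspose_conjTranspose]
    have e : star (-Complex.I / 2 : ℂ) = Complex.I / 2 := by
      simp
    rw [e, ← neg_sub M Mᴴ, smul_neg, ← neg_smul]
    congr 1
    ring
  -- the polynomial in `t`
  let HX : Matrix (Fin n) (Fin n) (Polynomial ℂ) :=
    H₁.map Polynomial.C + (Polynomial.X : Polynomial ℂ) • H₂.map Polynomial.C
  let AX : Matrix (Fin n) (Fin n) (Polynomial ℂ) := 1 + Polynomial.C Complex.I • HX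
  let BX : Matrix (Fin n) (Fin n) (Polynomial ℂ) := 1 - Polynomial.C Complex.I • HX
  let P : Polynomial ℂ := AX.det *
    MvPolynomial.eval₂ Polynomial.C (fun p => (BX * AX.adjugate) p.1 p.2) F
  have key : ∀ t : ℂ, P.eval t =
      (1 + Complex.I • (H₁ + t • H₂)).det * ev F (cay (H₁ + t • H₂)) := by
    intro t
    let φ : Polynomial ℂ →+* ℂ := Polynomial.evalRingHom t
    have hHX : HX.map φ = H₁ + t • H₂ := by
      ext i j
      simp only [HX, φ, Matrix.map_apply, Matrix.add_apply, Matrix.smul_apply, smul_eq_mul,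
        Polynomial.coe_evalRingHom, Polynomial.eval_add, Polynomial.eval_mul,
        Polynomial.eval_C, Polynomial.eval_X]
    have hAX : AX.map φ = 1 + Complex.I • (H₁ + t • H₂) := by
      rw [← hHX]
      ext i j
      simp [AX, φ, Matrix.one_apply]
      split_ifs <;> simp
    have hBX : BX.map φ = 1 - Complex.I • (H₁ + t • H₂) := by
      rw [← hHX]
      ext i j
      simp [BX, φ, Matrix.one_apply]
      split_ifs <;> simp
    have hprod : (BX * AX.adjugate).map φ = cay (H₁ + t • H₂) := by
      unfold cay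
      rw [Matrix.map_mul, hBX]
      congr 1
      have := RingHom.map_adjugate φ AX
      rw [RingHom.mapMatrix_apply, RingHom.mapMatrix_apply] at this
      rw [this, hAX]
    have e1 : P.eval t = φ AX.det *
        φ (MvPolynomial.eval₂ Polynomial.C (fun p => (BX * AX.adjugate) p.1 p.2) F) := by
      change φ P = _
      exact map_mul φ _ _
    rw [e1, RingHom.map_det, RingHom.mapMatrix_apply, hAX]
    congr 1
    rw [MvPolynomial.hom_eval₂]
    have e2 : φ.comp Polynomial.C = RingHom.id ℂ := by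
      ext z
      · simp [φ]
    rw [e2]
    unfold ev
    rw [MvPolynomial.eval₂_id]
    congr 1
    congr 1
    funext p
    have := congrFun (congrFun hprod p.1) p.2
    simpa [Matrix.map_apply] using this
  have hzero : P = 0 := by
    apply Polynomial.eq_zero_of_infinite_isRoot
    refine Set.Infinite.mono (s := Set.range fun x : ℝ => (x : ℂ)) ?_
      (Set.infinite_range_of_injective Complex.ofReal_injective)
    rintro _ ⟨x, rfl⟩
    change P.eval (x : ℂ) = 0
    rw [key]
    apply herm_case hF h0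
    apply hs₁.add
    unfold Matrix.IsHermitian
    rw [Matrix.conjTranspose_smul, hs₂.eq]
    simp
  have := key Complex.I
  rw [hzero, Polynomial.eval_zero, ← hM] at this
  exact this.symm

theorem ev_eq_zero {F : MvPolynomial (Fin n × Fin n) ℂ} (hF : F.IsHomogeneous m)
    (h0 : ∀ u ∈ Matrix.unitaryGroup (Fin n) ℂ, MvPolynomial.eval (fun p => u p.1 p.2) F = 0)
    (g : Matrix (Fin n) (Fin n) ℂ) (hg : (1 + g).det ≠ 0) : ev F g = 0 := by
  have hu : IsUnit (1 + g).det := Ne.isUnit hg
  have i1 : (1 + g) * (1 + g)⁻¹ = 1 := Matrix.mul_nonsing_inv _ hu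
  have i2 : (1 + g)⁻¹ * (1 + g) = 1 := Matrix.nonsing_inv_mul _ hu
  set c : Matrix (Fin n) (Fin n) ℂ := (1 + g)⁻¹ with hc
  set M : Matrix (Fin n) (Fin n) ℂ := (-Complex.I) • ((1 - g) * c) with hM
  have hIM : Complex.I • M = (1 - g) * c := by
    rw [hM, smul_smul]
    have : Complex.I * -Complex.I = 1 := by
      linear_combination (-1 : ℂ) * Complex.I_mul_I
    rw [this, one_smul]
  have hA : 1 + Complex.I • M = (2 : ℂ) • c := by
    rw [hIM, two_smul]
    nth_rewrite 1 [← i1]
    noncomm_ring
  have hB : 1 - Complex.I • M = (2 : ℂ) • (g * c) := by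
    rw [hIM, two_smul]
    nth_rewrite 1 [← i1]
    noncomm_ring
  have hcd : c.det ≠ 0 := by
    intro h
    have := congrArg Matrix.det i1
    rw [Matrix.det_mul, h, mul_zero, Matrix.det_one] at this
    exact zero_ne_one this
  have hAd : (1 + Complex.I • M).det ≠ 0 := by
    rw [hA, Matrix.det_smul]
    exact mul_ne_zero (pow_ne_zero _ two_ne_zero) hcd
  have h1 := all_case hF h0 M
  have h2 : ev F (cay M) = 0 := by
    rcases mul_eq_zero.1 h1 with h | h
    · exact absurd h hAd
    · exact h
  have h3 : cay M = (1 + Complex.I • M).det • g := by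
    unfold cay
    have e1 : (1 + Complex.I • M) * ((1 / 2 : ℂ) • (1 + g)) = 1 := by
      rw [hA, Matrix.smul_mul, Matrix.mul_smul, i2, smul_smul]
      norm_num
    have e2 : (1 + Complex.I • M).adjugate =
        (1 + Complex.I • M).det • ((1 / 2 : ℂ) • (1 + g)) := by
      calc (1 + Complex.I • M).adjugate
          = (1 + Complex.I • M).adjugate * ((1 + Complex.I • M) * ((1 / 2 : ℂ) • (1 + g))) := by
            rw [e1, mul_one]
        _ = (1 + Complex.I • M).det • ((1 / 2 : ℂ) • (1 + g)) := by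
            rw [← mul_assoc, Matrix.adjugate_mul, Matrix.smul_mul, one_mul]
    rw [e2, hB, Matrix.mul_smul, Matrix.smul_mul, Matrix.mul_smul, smul_smul (2 : ℂ)]
    rw [mul_assoc, i2]
    norm_num
  rw [h3, ev_smul hF] at h2
  rcases mul_eq_zero.1 h2 with h | h
  · exact absurd h (pow_ne_zero _ hAd)
  · exact h

/-- The unitary group is Zariski dense in the space of all complex matrices. -/
theorem main : Pool.Agent.Y150.KN.S_dens := by
  intro n m F hF h0
  let X : Matrix (Fin n) (Fin n) (MvPolynomial (Fin n × Fin n) ℂ) :=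
    Matrix.of fun i j => MvPolynomial.X (i, j)
  let D : MvPolynomial (Fin n × Fin n) ℂ := (1 + X).det
  have hD : ∀ x : Fin n × Fin n → ℂ,
      MvPolynomial.eval x D = (1 + Matrix.of fun i j => x (i, j)).det := by
    intro x
    change (MvPolynomial.eval x) (1 + X).det = _
    rw [RingHom.map_det, RingHom.mapMatrix_apply]
    congr 1
    ext i j
    simp [X, Matrix.one_apply]
  have hD0 : D ≠ 0 := by
    intro h
    have := hD 0
    rw [h, map_zero] at this
    have e : (Matrix.of fun i j => (0 : Fin n × Fin n → ℂ) (i, j)) = 0 := by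
      ext i j
      rfl
    rw [e, add_zero, Matrix.det_one] at this
    exact zero_ne_one this
  have hFD : F * D = 0 := by
    apply MvPolynomial.funext
    intro x
    rw [map_mul, map_zero, hD]
    by_cases h : (1 + Matrix.of fun i j => x (i, j)).det = 0
    · rw [h, mul_zero]
    · have := ev_eq_zero hF h0 (Matrix.of fun i j => x (i, j)) h
      have e : MvPolynomial.eval x F = ev F (Matrix.of fun i j => x (i, j)) := rfl
      rw [e, this, zero_mul]
  exact (mul_eq_zero.1 hFD).resolve_right hD0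

end Pool.Agent.Y27.KN.Dens
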